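import Pool.Agent.SGM.All

open MeasureTheory Set

namespace Pool.Agent.Results.MP_fff3e1_lc.DegreeFive

universe u

/-- `M` is a Borel matching of the graph `G`, given as a symmetric set of ordered pairs: it is a
Borel set of pairs of adjacent vertices, and every vertex lies in at most one of its edges. -/
structure IsBorelMatching {V : Type u} [MeasurableSpace V] (G : SimpleGraph V)
    (M : Set (V × V)) : Prop where
  borel : MeasurableSet M
  symm : ∀ x y, (x, y) ∈ M → (y, x) ∈ M
  adj : ∀ x y, (x, y) ∈ M → G.Adj x y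
  unique : ∀ x y z, (x, y) ∈ M → (x, z) ∈ M → y = z

/-- There are `k` pairwise disjoint Borel matchings of `G` such that for `μ`-almost every vertex `x`
every edge containing `x` belongs to one of them. -/
def HasMeasurableEdgeColoring {V : Type u} [MeasurableSpace V] (G : SimpleGraph V)
    (μ : Measure V) (k : ℕ) : Prop :=
  ∃ M : Fin k → Set (V × V), (∀ i, IsBorelMatching G (M i)) ∧
    (∀ i j, i ≠ j → Disjoint (M i) (M j)) ∧
    ∀ᵐ x ∂μ, ∀ y, G.Adj x y → ∃ i, (x, y) ∈ M i

/-- The measurable edge-chromatic number of `G` with respect to `μ`: the least `k` such that there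
is a measurable edge colouring with `k` colours (infinite if there is none). -/
noncomputable def measurableChromaticIndex {V : Type u} [MeasurableSpace V] (G : SimpleGraph V)
    (μ : Measure V) : ℕ∞ :=
  ⨅ (k : ℕ) (_ : HasMeasurableEdgeColoring G μ k), (k : ℕ∞)

/-- Let `Δ ≤ 5` and let `G` be a simple Borel graph on a standard Borel space with all degrees at
most `Δ` in which no two vertices of degree `Δ` are adjacent. Then for every Borel probability
measure `μ` the measurable edge-chromatic number of `G` with respect to `μ` is at most `Δ`. -/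
theorem result {V : Type u} [MeasurableSpace V] [StandardBorelSpace V] (G : SimpleGraph V)
    (hBorel : MeasurableSet {p : V × V | G.Adj p.1 p.2}) (Δ : ℕ) (hΔ : Δ ≤ 5)
    (hdeg : ∀ x, (G.neighborSet x).encard ≤ Δ)
    (hind : ∀ x y, G.Adj x y →
      ¬ ((G.neighborSet x).encard = Δ ∧ (G.neighborSet y).encard = Δ))
    (μ : Measure V) [IsProbabilityMeasure μ] :
    measurableChromaticIndex G μ ≤ Δ := by
  obtain ⟨w, hw⟩ := Pool.Agent.SGM.univP_le_five Δ hΔ
  obtain ⟨c, hc⟩ := Pool.Agent.SGM.fin_SGMP Δ w hw V G μ hBorel hdeg (by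
    intro x y hxy
    by_contra hcon
    push Not at hcon
    exact hind x y hxy ⟨le_antisymm (hdeg x) hcon.1, le_antisymm (hdeg y) hcon.2⟩)
  refine iInf₂_le_of_le Δ ?_ le_rfl
  refine ⟨fun k => {p | c.S k p.1 = p.2 ∧ p.1 ≠ p.2}, fun k => ?_, ?_, ?_⟩
  · refine ⟨?_, ?_, ?_, ?_⟩
    · refine (measurableSet_eq_fun ((c.meas k).comp measurable_fst) measurable_snd).inter ?_
      exact (measurableSet_eq_fun measurable_fst measurable_snd).compl
    · rintro x y ⟨h1, h2⟩
      refine ⟨?_, Ne.symm h2⟩
      simp only at h1 ⊢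
      rw [← h1, c.invol]
    · rintro x y ⟨h1, h2⟩
      simp only at h1 h2
      rw [← h1]
      exact c.adj k x (by rw [h1]; exact Ne.symm h2)
    · rintro x y z ⟨h1, -⟩ ⟨h2, -⟩
      exact h1.symm.trans h2
  · intro i j hij
    rw [disjoint_left]
    rintro ⟨x, y⟩ ⟨h1, h2⟩ ⟨h3, -⟩
    simp only at h1 h2 h3
    exact hij (c.disj i j x (h1.trans h3.symm) (by rw [h1]; exact Ne.symm h2))
  · filter_upwards [hc] with x hx y hxy
    obtain ⟨k, hk⟩ := hx y hxy
    exact ⟨k, hk, hxy.ne⟩

end Pool.Agent.Results.MP_fff3e1_lc.DegreeFive
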