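import Pool.Agent.MEG.Main2
import Pool.Agent.MEC.Generators
import Mathlib.Combinatorics.SimpleGraph.Girth

open MeasureTheory Set

namespace Pool.Agent.Results.MP_fff3e1_lc.LargeGirth

/-- `M` is a Borel matching of the graph `G`, given as a symmetric set of ordered pairs: it is a
Borel set of pairs of adjacent vertices, and every vertex lies in at most one of its edges. -/
structure IsBorelMatching {V : Type*} [MeasurableSpace V] (G : SimpleGraph V)
    (M : Set (V × V)) : Prop where
  borel : MeasurableSet M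
  symm : ∀ x y, (x, y) ∈ M → (y, x) ∈ M
  adj : ∀ x y, (x, y) ∈ M → G.Adj x y
  unique : ∀ x y z, (x, y) ∈ M → (x, z) ∈ M → y = z

/-- There are `k` pairwise disjoint Borel matchings of `G` such that for `μ`-almost every vertex `x`
every edge containing `x` belongs to one of them. -/
def HasMeasurableEdgeColoring {V : Type*} [MeasurableSpace V] (G : SimpleGraph V)
    (μ : Measure V) (k : ℕ) : Prop :=
  ∃ M : Fin k → Set (V × V), (∀ i, IsBorelMatching G (M i)) ∧
    (∀ i j, i ≠ j → Disjoint (M i) (M j)) ∧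
    ∀ᵐ x ∂μ, ∀ y, G.Adj x y → ∃ i, (x, y) ∈ M i

/-- The measurable edge-chromatic number of `G` with respect to `μ`: the least `k` such that there
is a measurable edge colouring with `k` colours (infinite if there is none). -/
noncomputable def measurableChromaticIndex {V : Type*} [MeasurableSpace V] (G : SimpleGraph V)
    (μ : Measure V) : ℕ∞ :=
  ⨅ (k : ℕ) (_ : HasMeasurableEdgeColoring G μ k), (k : ℕ∞)

/-- The bound for the girth: `8 Δ (R + 1) ⌈log₂ (8 Δ² (R + 1))⌉ + 2`. -/
def girthBound (Δ R : ℕ) : ℕ := 8 * Δ * (R + 1) * Nat.clog 2 (8 * Δ ^ 2 * (R + 1)) + 2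

/-- Let `G` be a simple Borel graph on a standard Borel space with all degrees at most `Δ`, such
that for some `R` every path of `G` with `R` edges contains a vertex of degree less than `Δ` (for
`R = 1` this says exactly that no two vertices of degree `Δ` are adjacent), and such that every
cycle of `G` is longer than `8 Δ (R + 1) ⌈log₂ (8 Δ² (R + 1))⌉ + 2`. Then the measurable
edge-chromatic number of `G` is at most `Δ` for every Borel probability measure. -/
theorem result {V : Type*} [MeasurableSpace V] [StandardBorelSpace V] (G : SimpleGraph V)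
    (hBorel : MeasurableSet {p : V × V | G.Adj p.1 p.2})
    (Δ : ℕ) (hdeg : ∀ x, (G.neighborSet x).encard ≤ Δ)
    (R : ℕ) (hR : ∀ (u v : V) (p : G.Walk u v), p.IsPath → p.length = R →
      ∃ w ∈ p.support, (G.neighborSet w).encard < Δ)
    (hgirth : ((girthBound Δ R : ℕ) : ℕ∞) < G.egirth)
    (μ : Measure V) [IsProbabilityMeasure μ] :
    measurableChromaticIndex G μ ≤ Δ := by
  obtain ⟨g⟩ := Pool.Agent.MEC.exists_gen (Δ := Δ) hBorel hdeg
  have hNB : Pool.Agent.MEG.NBg G (Pool.Agent.MEG.gb Δ R) :=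
    Pool.Agent.MEG.nbg_of_egirth hgirth
  obtain ⟨c, hc⟩ := Pool.Agent.MEG.exists_total' g hNB (fun hΔ =>
    Pool.Agent.MEG.sparse_of_paths' (hNB.mono (Pool.Agent.MEG.le_gb hΔ)) hR) μ
  refine iInf₂_le_of_le Δ ?_ le_rfl
  refine ⟨fun k => {p | c.S k p.1 = p.2 ∧ p.1 ≠ p.2}, fun k => ?_, ?_, ?_⟩
  · refine ⟨?_, ?_, ?_, ?_⟩
    · refine (measurableSet_eq_fun ((c.meas k).comp measurable_fst) measurable_snd).inter ?_
      exact (measurableSet_eq_fun measurable_fst measurable_snd).compl
    · rintro x y ⟨h1, h2⟩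
      refine ⟨?_, Ne.symm h2⟩
      simp only at h1 ⊢
      rw [← h1, c.invol]
    · rintro x y ⟨h1, h2⟩
      simp only at h1 h2
      rw [← h1]
      exact c.adj k x (by rw [h1]; exact Ne.symm h2)
    · rintro x y z ⟨h1, -⟩ ⟨h2, -⟩
      exact h1.symm.trans h2
  · intro i j hij
    rw [disjoint_left]
    rintro ⟨x, y⟩ ⟨h1, h2⟩ ⟨h3, -⟩
    simp only at h1 h2 h3
    exact hij (c.disj i j x (h1.trans h3.symm) (by rw [h1]; exact Ne.symm h2))
  · filter_upwards [hc] with x hx y hxy
    obtain ⟨k, hk⟩ := hx y hxy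
    exact ⟨k, hk, hxy.ne⟩

end Pool.Agent.Results.MP_fff3e1_lc.LargeGirth
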