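import Pool.Agent.MEQ.All

open MeasureTheory Set

namespace Pool.Agent.Results.MP_fff3e1_lc.LightOddCycles

universe u

/-- `M` is a Borel matching of the graph `G`, given as a symmetric set of ordered pairs: it is a
Borel set of pairs of adjacent vertices, and every vertex lies in at most one of its edges. -/
structure IsBorelMatching {V : Type u} [MeasurableSpace V] (G : SimpleGraph V)
    (M : Set (V × V)) : Prop where
  borel : MeasurableSet M
  symm : ∀ x y, (x, y) ∈ M → (y, x) ∈ M
  adj : ∀ x y, (x, y) ∈ M → G.Adj x y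
  unique : ∀ x y z, (x, y) ∈ M → (x, z) ∈ M → y = z

/-- There are `k` pairwise disjoint Borel matchings of `G` such that for `μ`-almost every vertex `x`
every edge containing `x` belongs to one of them. -/
def HasMeasurableEdgeColoring {V : Type u} [MeasurableSpace V] (G : SimpleGraph V)
    (μ : Measure V) (k : ℕ) : Prop :=
  ∃ M : Fin k → Set (V × V), (∀ i, IsBorelMatching G (M i)) ∧
    (∀ i j, i ≠ j → Disjoint (M i) (M j)) ∧
    ∀ᵐ x ∂μ, ∀ y, G.Adj x y → ∃ i, (x, y) ∈ M i

/-- The measurable edge-chromatic number of `G` with respect to `μ`: the least `k` such that there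
is a measurable edge colouring with `k` colours (infinite if there is none). -/
noncomputable def measurableChromaticIndex {V : Type u} [MeasurableSpace V] (G : SimpleGraph V)
    (μ : Measure V) : ℕ∞ :=
  ⨅ (k : ℕ) (_ : HasMeasurableEdgeColoring G μ k), (k : ℕ∞)

/-- `noLight Δ G` is the graph `G` without its light edges: the edges `xy` with
`deg x + deg y ≤ Δ + 1` (degrees in `G`) are deleted. -/
def noLight {V : Type u} (Δ : ℕ) (G : SimpleGraph V) : SimpleGraph V where
  Adj x y := G.Adj x y ∧ ¬ (G.neighborSet x).encard + (G.neighborSet y).encard ≤ (Δ + 1 : ℕ)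
  symm := ⟨fun _ _ h => ⟨h.1.symm, fun h' => h.2 (by rw [add_comm]; exact h')⟩⟩
  loopless := ⟨fun _ h => h.1.ne rfl⟩

/-- Let `G` be a simple Borel graph on a standard Borel space with all degrees at most `Δ` in which
no two vertices of degree `Δ` are adjacent, and suppose that for some `n` the graph obtained from
`G` by deleting all light edges `n` times has no odd cycle (`n = 0`: `G` has no odd cycle;
`n = 1`: every odd cycle of `G` has an edge `xy` with `deg x + deg y ≤ Δ + 1`). Then for every
Borel probability measure `μ` the measurable edge-chromatic number of `G` with respect to `μ` is at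
most `Δ`. -/
theorem result {V : Type u} [MeasurableSpace V] [StandardBorelSpace V] (G : SimpleGraph V)
    (hBorel : MeasurableSet {p : V × V | G.Adj p.1 p.2}) (Δ : ℕ)
    (hdeg : ∀ x, (G.neighborSet x).encard ≤ Δ)
    (hind : ∀ x y, G.Adj x y →
      (G.neighborSet x).encard < Δ ∨ (G.neighborSet y).encard < Δ)
    (hodd : ∃ n : ℕ, ∀ (v : V) (p : ((noLight Δ)^[n] G).Walk v v), p.IsCycle → Even p.length)
    (μ : Measure V) [IsProbabilityMeasure μ] :
    measurableChromaticIndex G μ ≤ Δ := by
  obtain ⟨n, hn⟩ := hodd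
  obtain ⟨c, hc⟩ := Pool.Agent.MEQ.fin_FNI V Δ μ n G hBorel hdeg hind hn
  refine iInf₂_le_of_le Δ ?_ le_rfl
  refine ⟨fun k => {p | c.S k p.1 = p.2 ∧ p.1 ≠ p.2}, fun k => ?_, ?_, ?_⟩
  · refine ⟨?_, ?_, ?_, ?_⟩
    · refine (measurableSet_eq_fun ((c.meas k).comp measurable_fst) measurable_snd).inter ?_
      exact (measurableSet_eq_fun measurable_fst measurable_snd).compl
    · rintro x y ⟨h1, h2⟩
      refine ⟨?_, Ne.symm h2⟩
      simp only at h1 ⊢
      rw [← h1, c.invol]
    · rintro x y ⟨h1, h2⟩
      simp only at h1 h2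
      rw [← h1]
      exact c.adj k x (by rw [h1]; exact Ne.symm h2)
    · rintro x y z ⟨h1, -⟩ ⟨h2, -⟩
      exact h1.symm.trans h2
  · intro i j hij
    rw [disjoint_left]
    rintro ⟨x, y⟩ ⟨h1, h2⟩ ⟨h3, -⟩
    simp only at h1 h2 h3
    exact hij (c.disj i j x (h1.trans h3.symm) (by rw [h1]; exact Ne.symm h2))
  · filter_upwards [hc] with x hx y hxy
    obtain ⟨k, hk⟩ := hx y hxy
    exact ⟨k, hk, hxy.ne⟩

end Pool.Agent.Results.MP_fff3e1_lc.LightOddCycles
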